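import Pool.Agent.ZAR.Stmts

/-!
# Rows H5A, H5B, H5C, H5L, H5R: the transversal families on level 5
-/

set_option linter.unusedSimpArgs false

namespace Pool.Agent.ZAR.H41

open MvPowerSeries Pool.Agent.ZAR

section tools

variable {L : Type} [Field L]

/-- the constant term of a substitution -/
lemma cc_subst {p q : ℕ} (s : Fin p → MvPowerSeries (Fin q) L)
    (hs : ∀ i, constantCoeff (s i) = 0) (f : MvPowerSeries (Fin p) L) :
    constantCoeff (subst s f) = constantCoeff f := by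
  have hs' := hasSubst_of_constantCoeff_zero hs
  have h : constantCoeff (subst s (f - C (constantCoeff f))) = 0 :=
    constantCoeff_subst_eq_zero hs' hs (by simp)
  rw [subst_sub hs', map_sub, subst_C, constantCoeff_C, sub_eq_zero] at h
  exact h

lemma pderiv_lin {p m : ℕ} (u : Fin m → L) (P : Fin m → MvPowerSeries (Fin p) L) (k : Fin p) :
    pderiv L k (∑ j, C (u j) * P j) = ∑ j, C (u j) * pderiv L k (P j) := by
  rw [map_sum]
  refine Finset.sum_congr rfl fun j _ => ?_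
  rw [Derivation.leibniz, pderiv_C, smul_zero, add_zero, smul_eq_mul]

lemma subst_lin {p q m : ℕ} (s : Fin p → MvPowerSeries (Fin q) L)
    (hs : ∀ i, constantCoeff (s i) = 0) (u : Fin m → L) (P : Fin m → MvPowerSeries (Fin p) L) :
    subst s (∑ j, C (u j) * P j) = ∑ j, C (u j) * subst s (P j) := by
  have hs' := hasSubst_of_constantCoeff_zero hs
  rw [← coe_substAlgHom hs', map_sum]
  refine Finset.sum_congr rfl fun j _ => ?_
  rw [map_mul, coe_substAlgHom hs', subst_C]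

lemma subst_neg' {p q : ℕ} {s : Fin p → MvPowerSeries (Fin q) L} (hs : HasSubst s)
    (f : MvPowerSeries (Fin p) L) : subst s (-f) = -subst s f := by
  rw [← coe_substAlgHom hs, map_neg]

/-- the kernel vector has nonzero coordinates -/
lemma kv_ne {K : Type} [Field K] [CharZero K] [Algebra K L] (hGVK : GVKStmt) {n : ℕ}
    (u : Fin n → Fin (n + 1) → L) (hu : Gen K u) (j : Fin (n + 1)) : kv u j ≠ 0 := by
  have h := (hGVK K L n u hu).2 1 (MvPolynomial.X j) (MvPolynomial.isHomogeneous_X K j)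
    (MvPolynomial.X_ne_zero j)
  rwa [MvPolynomial.aeval_X] at h

/-- transversality from the constant terms of the tangent vectors -/
lemma core (hTVD : TVDStmt) (u : Fin 5 → Fin 6 → L) (P P' : Fin 6 → MvPowerSeries (Fin 4) L)
    (s s' : Fin 4 → MvPowerSeries (Fin 3) L) (hs : ∀ i, constantCoeff (s i) = 0)
    (hs' : ∀ i, constantCoeff (s' i) = 0) (q : Fin 6) (hq : kv u q ≠ 0)
    (hker : ∀ i, ∑ j, u i j * kv u j = 0) (lam : MvPowerSeries (Fin 3) L)
    (hpt : ∀ j, subst s (P j) - subst s' (P' j) = lam * C (kv u j))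
    (ht0 : ∀ j, constantCoeff (pderiv L 0 (P' j)) = if j = q.succAbove 0 then 1 else 0)
    (ht : ∀ (k : Fin 4) (j : Fin 6),
      constantCoeff (pderiv L k (P j)) = if j = q.succAbove k.succ then 1 else 0) :
    Tv (fun i => ∑ j, C (u i j) * P j) (fun i => ∑ j, C (u i j) * P' j) s s' := by
  refine hTVD L 5 4 4 3 _ _ s s'
    (Fin.cons (α := fun _ => Fin 4 ⊕ Fin 4) (Sum.inr 0) Sum.inl) hs hs' ?_ ?_
  · intro i
    rw [subst_lin s hs, subst_lin s' hs', ← sub_eq_zero, ← Finset.sum_sub_distrib]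
    have : ∀ j, C (u i j) * subst s (P j) - C (u i j) * subst s' (P' j) =
        lam * C (u i j * kv u j) := by
      intro j
      rw [← mul_sub, hpt j, map_mul]
      ring
    rw [Finset.sum_congr rfl fun j _ => this j, ← Finset.mul_sum, ← map_sum, hker i, map_zero,
      mul_zero]
  · intro h
    have h1 := congrArg (constantCoeff (σ := Fin 3) (R := L)) h
    rw [RingHom.map_det, map_zero] at h1
    have h2 : (constantCoeff (σ := Fin 3) (R := L)).mapMatrix
        (tanM (fun i => ∑ j, C (u i j) * P j) (fun i => ∑ j, C (u i j) * P' j) s s'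
          (Fin.cons (α := fun _ => Fin 4 ⊕ Fin 4) (Sum.inr 0) Sum.inl)) =
        Matrix.of fun i k : Fin 5 => u i (q.succAbove k) := by
      ext i k
      rw [RingHom.mapMatrix_apply, Matrix.map_apply]
      refine Fin.cases ?_ (fun k => ?_) k
      · simp only [tanM, Matrix.of_apply, Fin.cons_zero, Sum.elim_inr]
        rw [pderiv_lin, cc_subst s' hs', map_sum]
        simp only [map_mul, constantCoeff_C, ht0]
        simp
      · simp only [tanM, Matrix.of_apply, Fin.cons_succ, Sum.elim_inl]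
        rw [pderiv_lin, cc_subst s hs, map_sum]
        simp only [map_mul, constantCoeff_C, ht]
        simp
    rw [h2] at h1
    apply hq
    rw [kv, h1, mul_zero]

end tools

section rows

variable (K L : Type) [Field K] [Field L] [Algebra K L]

lemma gP_cc (k : Fin 8) (i : Fin 6) : constantCoeff (gP K k i) = 0 := by
  fin_cases k <;> fin_cases i <;> simp [gP]

lemma gP_hs (k : Fin 8) : HasSubst (gP K k) := hasSubst_of_constantCoeff_zero (gP_cc K k)

lemma bVa (a : Fin 6 → MvPowerSeries (Fin 4) K) (ha : ∀ i, constantCoeff (a i) = 0) :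
    (fun j => bc K L (Fin 4) (subst a (bV K j))) =
      ![bc K L (Fin 4) (a 0), bc K L (Fin 4) (a 1),
        bc K L (Fin 4) (a 2) + bc K L (Fin 4) (a 5) * bc K L (Fin 4) (a 1) ^ 2,
        bc K L (Fin 4) (a 3), bc K L (Fin 4) (a 4), bc K L (Fin 4) (a 5)] := by
  have h := hasSubst_of_constantCoeff_zero ha
  funext j
  fin_cases j <;>
    simp only [bV, subst_X h, subst_add h, subst_mul h, subst_pow h, map_add, map_mul, map_pow,
      Fin.zero_eta, Fin.mk_one, Fin.reduceFinMk, Fin.isValue, Matrix.cons_val]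

lemma bV0 : (fun j => bc K L (Fin 4) (subst (gP K 0) (bV K j))) =
    ![0, 0, X 0, X 1, X 2, X 3] := by
  rw [bVa K L (gP K 0) (gP_cc K 0)]
  simp [gP]

lemma bV1 : (fun j => bc K L (Fin 4) (subst (gP K 1) (bV K j))) =
    ![X 0 ^ 3, 0, X 0, X 1, X 2, X 3] := by
  rw [bVa K L (gP K 1) (gP_cc K 1)]
  simp [gP]

lemma bV2 : (fun j => bc K L (Fin 4) (subst (gP K 2) (bV K j))) =
    ![-(X 0 ^ 2 * X 1), 0, X 0, X 1, X 2, X 3] := by
  rw [bVa K L (gP K 2) (gP_cc K 2)]
  simp [gP]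

lemma bV3 : (fun j => bc K L (Fin 4) (subst (gP K 3) (bV K j))) =
    ![X 0, X 1, X 3 * X 1 ^ 2, 0, X 2, X 3] := by
  rw [bVa K L (gP K 3) (gP_cc K 3)]
  simp [gP]

lemma bV4 : (fun j => bc K L (Fin 4) (subst (gP K 4) (bV K j))) =
    ![X 0, X 1, X 3 * X 1 ^ 2, X 1 ^ 2 * X 2, X 2, X 3] := by
  rw [bVa K L (gP K 4) (gP_cc K 4)]
  simp [gP]

lemma bV5 : (fun j => bc K L (Fin 4) (subst (gP K 5) (bV K j))) =
    ![X 0, X 1, X 1 ^ 2 * X 2 + X 3 * X 1 ^ 2, 0, X 2, X 3] := by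
  rw [bVa K L (gP K 5) (gP_cc K 5)]
  simp [gP]

lemma bV6 : (fun j => bc K L (Fin 4) (subst (gP K 6) (bV K j))) =
    ![0, X 0, X 3 * X 0 ^ 2, X 1, X 2, X 3] := by
  rw [bVa K L (gP K 6) (gP_cc K 6)]
  simp [gP]

lemma bV7 : (fun j => bc K L (Fin 4) (subst (gP K 7) (bV K j))) =
    ![0, X 0, X 1 + X 3 * X 0 ^ 2, 0, X 2, X 3] := by
  rw [bVa K L (gP K 7) (gP_cc K 7)]
  simp [gP]

end rows

lemma sa0 : (1 : Fin 6).succAbove (0 : Fin 5) = 0 := rfl
lemma sa1 : (1 : Fin 6).succAbove (1 : Fin 5) = 2 := rfl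
lemma sa2 : (1 : Fin 6).succAbove (2 : Fin 5) = 3 := rfl
lemma sa3 : (1 : Fin 6).succAbove (3 : Fin 5) = 4 := rfl
lemma sa4 : (1 : Fin 6).succAbove (4 : Fin 5) = 5 := rfl

theorem h5a (hGVK : GVKStmt) (hTVD : TVDStmt) : H5AStmt := by
  intro K L _ _ _ _ u hu
  have hk := kv_ne hGVK u hu
  have hker := (hGVK K L 5 u hu).1
  obtain ⟨v, hv⟩ : ∃ v, v = kv u := ⟨_, rfl⟩
  rw [← hv] at hk hker
  obtain ⟨s, hsd⟩ : ∃ s : Fin 4 → MvPowerSeries (Fin 3) L, s =
    ![C (v 2) * X 0 + C (v 1 ^ 2) * X 2 * X 0 ^ 2, C (v 3) * X 0, X 1 + C (v 4) * X 0,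
      X 2 + C (v 5) * X 0] := ⟨_, rfl⟩
  obtain ⟨s', hsd'⟩ : ∃ s' : Fin 4 → MvPowerSeries (Fin 3) L, s' =
    ![-(C (v 0) * X 0), -(C (v 1) * X 0), X 1, X 2] := ⟨_, rfl⟩
  have hs : ∀ i, constantCoeff (s i) = 0 := by intro i; fin_cases i <;> simp [hsd]
  have hs' : ∀ i, constantCoeff (s' i) = 0 := by intro i; fin_cases i <;> simp [hsd']
  have hh := hasSubst_of_constantCoeff_zero hs
  have hh' := hasSubst_of_constantCoeff_zero hs'
  have h0 : subst s (0 : MvPowerSeries (Fin 4) L) = 0 := by rw [← coe_substAlgHom hh, map_zero]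
  have h0' : subst s' (0 : MvPowerSeries (Fin 4) L) = 0 := by rw [← coe_substAlgHom hh', map_zero]
  refine ⟨s, s', ?_, ?_⟩
  · have h := core hTVD u ![0, 0, X 0, X 1, X 2, X 3]
      ![X 0, X 1, X 3 * X 1 ^ 2, 0, X 2, X 3]
      s s' hs hs' 1 (by rw [← hv]; exact hk 1) (by rw [← hv]; exact hker) (X 0) ?_ ?_ ?_
    · rw [← bV0 K L, ← bV3 K L] at h
      exact h
    · rw [← hv]
      intro j
      fin_cases j <;>
        simp only [subst_X hh, subst_mul hh, subst_pow hh, subst_add hh, subst_neg' hh, h0,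
          subst_X hh', subst_mul hh', subst_pow hh', subst_add hh', h0', Fin.zero_eta, Fin.mk_one,
          Fin.reduceFinMk, Fin.isValue, Matrix.cons_val] <;>
        simp [hsd, hsd'] <;> ring
    · intro j
      fin_cases j <;> simp [pderiv_X, Derivation.leibniz, pderiv_pow, Fin.ext_iff]
    · intro k j
      fin_cases k <;> fin_cases j <;> simp [pderiv_X, Derivation.leibniz, pderiv_pow, Fin.ext_iff] <;>
        decide
  · intro i
    have hpf : pf u (bV K) (gP K 0) i = ∑ j, C (u i j) *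
        (![0, 0, X 0, X 1, X 2, X 3] : Fin 6 → MvPowerSeries (Fin 4) L) j := by
      rw [← bV0 K L]; rfl
    rw [hpf, subst_lin s hs, Fin.sum_univ_succAbove _ 1, ← hv]
    refine (congrArg₂ (· + ·) ?_ (Finset.sum_congr rfl fun m _ => ?_)).trans (zero_add _)
    · simp [h0]
    · refine congrArg _ ?_
      fin_cases m <;>
        simp only [fA, subst_X hh, subst_mul hh, subst_pow hh, subst_add hh, subst_neg' hh, h0,
          Fin.zero_eta, Fin.mk_one, Fin.reduceFinMk, Fin.isValue, Matrix.cons_val,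
          sa0, sa1, sa2, sa3, sa4] <;> simp [hsd]

theorem h5b (hGVK : GVKStmt) (hTVD : TVDStmt) : H5BStmt := by
  intro K L _ _ _ _ u hu
  have hk := kv_ne hGVK u hu
  have hker := (hGVK K L 5 u hu).1
  obtain ⟨v, hv⟩ : ∃ v, v = kv u := ⟨_, rfl⟩
  rw [← hv] at hk hker
  obtain ⟨s, hsd⟩ : ∃ s : Fin 4 → MvPowerSeries (Fin 3) L, s =
    ![C (v 2) * X 0 + C (v 1 ^ 2) * X 2 * X 0 ^ 2, C (v 3) * X 0 + C (v 1 ^ 2) * X 0 ^ 2 * X 1,
      X 1 + C (v 4) * X 0, X 2 + C (v 5) * X 0] := ⟨_, rfl⟩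
  obtain ⟨s', hsd'⟩ : ∃ s' : Fin 4 → MvPowerSeries (Fin 3) L, s' =
    ![(C (v 2) * X 0 + C (v 1 ^ 2) * X 2 * X 0 ^ 2) ^ 3 - C (v 0) * X 0, -(C (v 1) * X 0), X 1, X 2] := ⟨_, rfl⟩
  have hs : ∀ i, constantCoeff (s i) = 0 := by intro i; fin_cases i <;> simp [hsd]
  have hs' : ∀ i, constantCoeff (s' i) = 0 := by intro i; fin_cases i <;> simp [hsd']
  have hh := hasSubst_of_constantCoeff_zero hs
  have hh' := hasSubst_of_constantCoeff_zero hs'
  have h0 : subst s (0 : MvPowerSeries (Fin 4) L) = 0 := by rw [← coe_substAlgHom hh, map_zero]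
  have h0' : subst s' (0 : MvPowerSeries (Fin 4) L) = 0 := by rw [← coe_substAlgHom hh', map_zero]
  refine ⟨s, s', ?_, ?_⟩
  · have h := core hTVD u ![X 0 ^ 3, 0, X 0, X 1, X 2, X 3]
      ![X 0, X 1, X 3 * X 1 ^ 2, X 1 ^ 2 * X 2, X 2, X 3]
      s s' hs hs' 1 (by rw [← hv]; exact hk 1) (by rw [← hv]; exact hker) (X 0) ?_ ?_ ?_
    · rw [← bV1 K L, ← bV4 K L] at h
      exact h
    · rw [← hv]
      intro j
      fin_cases j <;>
        simp only [subst_X hh, subst_mul hh, subst_pow hh, subst_add hh, subst_neg' hh, h0,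
          subst_X hh', subst_mul hh', subst_pow hh', subst_add hh', h0', Fin.zero_eta, Fin.mk_one,
          Fin.reduceFinMk, Fin.isValue, Matrix.cons_val] <;>
        simp [hsd, hsd'] <;> ring
    · intro j
      fin_cases j <;> simp [pderiv_X, Derivation.leibniz, pderiv_pow, Fin.ext_iff]
    · intro k j
      fin_cases k <;> fin_cases j <;> simp [pderiv_X, Derivation.leibniz, pderiv_pow, Fin.ext_iff] <;>
        decide
  · intro i
    have hpf : pf u (bV K) (gP K 1) i = ∑ j, C (u i j) *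
        (![X 0 ^ 3, 0, X 0, X 1, X 2, X 3] : Fin 6 → MvPowerSeries (Fin 4) L) j := by
      rw [← bV1 K L]; rfl
    rw [hpf, subst_lin s hs, Fin.sum_univ_succAbove _ 1, ← hv]
    refine (congrArg₂ (· + ·) ?_ (Finset.sum_congr rfl fun m _ => ?_)).trans (zero_add _)
    · simp [h0]
    · refine congrArg _ ?_
      fin_cases m <;>
        simp only [fB, subst_X hh, subst_mul hh, subst_pow hh, subst_add hh, subst_neg' hh, h0,
          Fin.zero_eta, Fin.mk_one, Fin.reduceFinMk, Fin.isValue, Matrix.cons_val,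
          sa0, sa1, sa2, sa3, sa4] <;> simp [hsd]

theorem h5c (hGVK : GVKStmt) (hTVD : TVDStmt) : H5CStmt := by
  intro K L _ _ _ _ u hu
  have hk := kv_ne hGVK u hu
  have hker := (hGVK K L 5 u hu).1
  obtain ⟨v, hv⟩ : ∃ v, v = kv u := ⟨_, rfl⟩
  rw [← hv] at hk hker
  obtain ⟨s, hsd⟩ : ∃ s : Fin 4 → MvPowerSeries (Fin 3) L, s =
    ![C (v 2) * X 0 + C (v 1 ^ 2) * X 2 * X 0 ^ 2 + C (v 1 ^ 2) * X 0 ^ 2 * X 1, C (v 3) * X 0,
      X 1 + C (v 4) * X 0, X 2 + C (v 5) * X 0] := ⟨_, rfl⟩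
  obtain ⟨s', hsd'⟩ : ∃ s' : Fin 4 → MvPowerSeries (Fin 3) L, s' =
    ![-((C (v 2) * X 0 + C (v 1 ^ 2) * X 2 * X 0 ^ 2 + C (v 1 ^ 2) * X 0 ^ 2 * X 1) ^ 2 *
      (C (v 3) * X 0)) - C (v 0) * X 0, -(C (v 1) * X 0), X 1, X 2] := ⟨_, rfl⟩
  have hs : ∀ i, constantCoeff (s i) = 0 := by intro i; fin_cases i <;> simp [hsd]
  have hs' : ∀ i, constantCoeff (s' i) = 0 := by intro i; fin_cases i <;> simp [hsd']
  have hh := hasSubst_of_constantCoeff_zero hs
  have hh' := hasSubst_of_constantCoeff_zero hs'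
  have h0 : subst s (0 : MvPowerSeries (Fin 4) L) = 0 := by rw [← coe_substAlgHom hh, map_zero]
  have h0' : subst s' (0 : MvPowerSeries (Fin 4) L) = 0 := by rw [← coe_substAlgHom hh', map_zero]
  refine ⟨s, s', ?_, ?_⟩
  · have h := core hTVD u ![-(X 0 ^ 2 * X 1), 0, X 0, X 1, X 2, X 3]
      ![X 0, X 1, X 1 ^ 2 * X 2 + X 3 * X 1 ^ 2, 0, X 2, X 3]
      s s' hs hs' 1 (by rw [← hv]; exact hk 1) (by rw [← hv]; exact hker) (X 0) ?_ ?_ ?_
    · rw [← bV2 K L, ← bV5 K L] at h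
      exact h
    · rw [← hv]
      intro j
      fin_cases j <;>
        simp only [subst_X hh, subst_mul hh, subst_pow hh, subst_add hh, subst_neg' hh, h0,
          subst_X hh', subst_mul hh', subst_pow hh', subst_add hh', h0', Fin.zero_eta, Fin.mk_one,
          Fin.reduceFinMk, Fin.isValue, Matrix.cons_val] <;>
        simp [hsd, hsd'] <;> ring
    · intro j
      fin_cases j <;> simp [pderiv_X, Derivation.leibniz, pderiv_pow, Fin.ext_iff]
    · intro k j
      fin_cases k <;> fin_cases j <;> simp [pderiv_X, Derivation.leibniz, pderiv_pow, Fin.ext_iff] <;>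
        decide
  · intro i
    have hpf : pf u (bV K) (gP K 2) i = ∑ j, C (u i j) *
        (![-(X 0 ^ 2 * X 1), 0, X 0, X 1, X 2, X 3] : Fin 6 → MvPowerSeries (Fin 4) L) j := by
      rw [← bV2 K L]; rfl
    rw [hpf, subst_lin s hs, Fin.sum_univ_succAbove _ 1, ← hv]
    refine (congrArg₂ (· + ·) ?_ (Finset.sum_congr rfl fun m _ => ?_)).trans (zero_add _)
    · simp [h0]
    · refine congrArg _ ?_
      fin_cases m <;>
        simp only [fC, subst_X hh, subst_mul hh, subst_pow hh, subst_add hh, subst_neg' hh, h0,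
          Fin.zero_eta, Fin.mk_one, Fin.reduceFinMk, Fin.isValue, Matrix.cons_val,
          sa0, sa1, sa2, sa3, sa4] <;> simp [hsd]

theorem h5l (hGVK : GVKStmt) (hTVD : TVDStmt) : H5LStmt := by
  intro K L _ _ _ _ u hu
  have hk := kv_ne hGVK u hu
  have hker := (hGVK K L 5 u hu).1
  obtain ⟨v, hv⟩ : ∃ v, v = kv u := ⟨_, rfl⟩
  rw [← hv] at hk hker
  obtain ⟨s, hsd⟩ : ∃ s : Fin 4 → MvPowerSeries (Fin 3) L, s =
    ![0, X 0, X 1, X 2] := ⟨_, rfl⟩
  obtain ⟨s', hsd'⟩ : ∃ s' : Fin 4 → MvPowerSeries (Fin 3) L, s' =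
    ![0, X 0, X 1, X 2] := ⟨_, rfl⟩
  have hs : ∀ i, constantCoeff (s i) = 0 := by intro i; fin_cases i <;> simp [hsd]
  have hs' : ∀ i, constantCoeff (s' i) = 0 := by intro i; fin_cases i <;> simp [hsd']
  have hh := hasSubst_of_constantCoeff_zero hs
  have hh' := hasSubst_of_constantCoeff_zero hs'
  have h0 : subst s (0 : MvPowerSeries (Fin 4) L) = 0 := by rw [← coe_substAlgHom hh, map_zero]
  have h0' : subst s' (0 : MvPowerSeries (Fin 4) L) = 0 := by rw [← coe_substAlgHom hh', map_zero]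
  refine ⟨s, s', ?_, ?_⟩
  · have h := core hTVD u ![0, 0, X 0, X 1, X 2, X 3]
      ![0, X 0, X 3 * X 0 ^ 2, X 1, X 2, X 3]
      s s' hs hs' 0 (by rw [← hv]; exact hk 0) (by rw [← hv]; exact hker) (0) ?_ ?_ ?_
    · rw [← bV0 K L, ← bV6 K L] at h
      exact h
    · rw [← hv]
      intro j
      fin_cases j <;>
        simp only [subst_X hh, subst_mul hh, subst_pow hh, subst_add hh, subst_neg' hh, h0,
          subst_X hh', subst_mul hh', subst_pow hh', subst_add hh', h0', Fin.zero_eta, Fin.mk_one,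
          Fin.reduceFinMk, Fin.isValue, Matrix.cons_val] <;>
        simp [hsd, hsd'] <;> ring
    · intro j
      fin_cases j <;> simp [pderiv_X, Derivation.leibniz, pderiv_pow, Fin.ext_iff]
    · intro k j
      fin_cases k <;> fin_cases j <;> simp [pderiv_X, Derivation.leibniz, pderiv_pow, Fin.ext_iff] <;>
        decide
  · intro i
    have hpf : pf u (bV K) (gP K 0) i = ∑ j, C (u i j) *
        (![0, 0, X 0, X 1, X 2, X 3] : Fin 6 → MvPowerSeries (Fin 4) L) j := by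
      rw [← bV0 K L]; rfl
    rw [hpf, subst_lin s hs, Fin.sum_univ_succAbove _ 1]
    refine (congrArg₂ (· + ·) ?_ (Finset.sum_congr rfl fun m _ => ?_)).trans (zero_add _)
    · simp [h0]
    · refine congrArg _ ?_
      fin_cases m <;>
        simp only [fL, subst_X hh, subst_mul hh, subst_pow hh, subst_add hh, subst_neg' hh, h0,
          Fin.zero_eta, Fin.mk_one, Fin.reduceFinMk, Fin.isValue, Matrix.cons_val,
          sa0, sa1, sa2, sa3, sa4] <;> simp [hsd]

theorem h5r (hGVK : GVKStmt) (hTVD : TVDStmt) : H5RStmt := by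
  intro K L _ _ _ _ u hu
  have hk := kv_ne hGVK u hu
  have hker := (hGVK K L 5 u hu).1
  obtain ⟨v, hv⟩ : ∃ v, v = kv u := ⟨_, rfl⟩
  rw [← hv] at hk hker
  obtain ⟨s, hsd⟩ : ∃ s : Fin 4 → MvPowerSeries (Fin 3) L, s =
    ![X 0, 0, X 1, X 2] := ⟨_, rfl⟩
  obtain ⟨s', hsd'⟩ : ∃ s' : Fin 4 → MvPowerSeries (Fin 3) L, s' =
    ![0, X 0, X 1, X 2] := ⟨_, rfl⟩
  have hs : ∀ i, constantCoeff (s i) = 0 := by intro i; fin_cases i <;> simp [hsd]
  have hs' : ∀ i, constantCoeff (s' i) = 0 := by intro i; fin_cases i <;> simp [hsd']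
  have hh := hasSubst_of_constantCoeff_zero hs
  have hh' := hasSubst_of_constantCoeff_zero hs'
  have h0 : subst s (0 : MvPowerSeries (Fin 4) L) = 0 := by rw [← coe_substAlgHom hh, map_zero]
  have h0' : subst s' (0 : MvPowerSeries (Fin 4) L) = 0 := by rw [← coe_substAlgHom hh', map_zero]
  refine ⟨s, s', ?_, ?_⟩
  · have h := core hTVD u ![0, 0, X 0, X 1, X 2, X 3]
      ![0, X 0, X 1 + X 3 * X 0 ^ 2, 0, X 2, X 3]
      s s' hs hs' 0 (by rw [← hv]; exact hk 0) (by rw [← hv]; exact hker) (0) ?_ ?_ ?_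
    · rw [← bV0 K L, ← bV7 K L] at h
      exact h
    · rw [← hv]
      intro j
      fin_cases j <;>
        simp only [subst_X hh, subst_mul hh, subst_pow hh, subst_add hh, subst_neg' hh, h0,
          subst_X hh', subst_mul hh', subst_pow hh', subst_add hh', h0', Fin.zero_eta, Fin.mk_one,
          Fin.reduceFinMk, Fin.isValue, Matrix.cons_val] <;>
        simp [hsd, hsd'] <;> ring
    · intro j
      fin_cases j <;> simp [pderiv_X, Derivation.leibniz, pderiv_pow, Fin.ext_iff]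
    · intro k j
      fin_cases k <;> fin_cases j <;> simp [pderiv_X, Derivation.leibniz, pderiv_pow, Fin.ext_iff] <;>
        decide
  · intro i
    have hpf : pf u (bV K) (gP K 0) i = ∑ j, C (u i j) *
        (![0, 0, X 0, X 1, X 2, X 3] : Fin 6 → MvPowerSeries (Fin 4) L) j := by
      rw [← bV0 K L]; rfl
    rw [hpf, subst_lin s hs, Fin.sum_univ_succAbove _ 1]
    refine (congrArg₂ (· + ·) ?_ (Finset.sum_congr rfl fun m _ => ?_)).trans (zero_add _)
    · simp [h0]
    · refine congrArg _ ?_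
      fin_cases m <;>
        simp only [fR, subst_X hh, subst_mul hh, subst_pow hh, subst_add hh, subst_neg' hh, h0,
          Fin.zero_eta, Fin.mk_one, Fin.reduceFinMk, Fin.isValue, Matrix.cons_val,
          sa0, sa1, sa2, sa3, sa4] <;> simp [hsd]

end Pool.Agent.ZAR.H41
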